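import Mathlib

/-!
# CIR: a monic polynomial factor is removed by a circle and the maximum principle
-/

set_option autoImplicit false

namespace Pool.Agent.H76.GA

open Metric

/-- the polynomial factor of an entire function may be removed: the statement -/
def T_CIR : Prop := ∀ (n : ℕ) (ε : ℝ), 0 < ε → ∃ c : ℝ, 0 < c ∧
  ∀ (Q : Polynomial ℂ), Q.Monic → Q.natDegree = n → ∀ (L : ℂ → ℂ) (s₀ : ℂ) (B : ℝ),
    Differentiable ℂ L →
    (∀ s : ℂ, ε ≤ ‖s - s₀‖ → ‖s - s₀‖ ≤ 2 * ε → ‖Q.eval s‖ * ‖L s‖ ≤ B + c * ‖L s‖) →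
      ‖L s₀‖ ≤ B / c

/-- the radii -/
lemma exists_radius (n : ℕ) (ε : ℝ) (hε : 0 < ε) (d : Fin n → ℝ) :
    ∃ R : ℝ, ε ≤ R ∧ R ≤ 2 * ε ∧ ∀ j, ε / (2 * (n + 1)) ≤ |d j - R| := by
  have hn : (0 : ℝ) < n + 1 := by positivity
  set η : ℝ := ε / (n + 1) with hη
  have hη0 : 0 < η := div_pos hε hn
  have hηn : η * (n + 1) = ε := by rw [hη]; field_simp
  -- the radii are `ε + (k + 1/2) η`
  set r : Fin (n + 1) → ℝ := fun k => ε + ((k : ℕ) + 1 / 2 : ℝ) * η with hr
  have hr1 : ∀ k, ε ≤ r k := by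
    intro k
    have : 0 ≤ ((k : ℕ) + 1 / 2 : ℝ) * η := by positivity
    simp only [hr]; linarith
  have hr2 : ∀ k, r k ≤ 2 * ε := by
    intro k
    have hk : ((k : ℕ) : ℝ) + 1 ≤ n + 1 := by
      have := k.2
      exact_mod_cast this
    have : ((k : ℕ) + 1 / 2 : ℝ) * η ≤ (n + 1) * η :=
      mul_le_mul_of_nonneg_right (by linarith) hη0.le
    simp only [hr]; nlinarith
  have he : ε / (2 * (n + 1)) = η / 2 := by rw [hη]; field_simp
  by_contra hcon
  push Not at hcon
  have h1 : ∀ k : Fin (n + 1), ∃ j : Fin n, |d j - r k| < η / 2 := by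
    intro k
    obtain ⟨j, hj⟩ := hcon (r k) (hr1 k) (hr2 k)
    exact ⟨j, by rwa [← he]⟩
  choose f hf using h1
  obtain ⟨k, l, hkl, hfl⟩ := Fintype.exists_ne_map_eq_of_card_lt f (by simp)
  have h2 : |r k - r l| < η := by
    have ha := hf k
    have hb := hf l
    rw [hfl] at ha
    calc |r k - r l| = |(d (f l) - r l) - (d (f l) - r k)| := by ring_nf
      _ ≤ |d (f l) - r l| + |d (f l) - r k| := abs_sub _ _
      _ < η / 2 + η / 2 := add_lt_add hb ha
      _ = η := by ring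
  have h3 : r k - r l = (((k : ℕ) : ℝ) - ((l : ℕ) : ℝ)) * η := by
    simp only [hr]; ring
  rw [h3, abs_mul, abs_of_pos hη0] at h2
  have h4 : |((k : ℕ) : ℝ) - ((l : ℕ) : ℝ)| < 1 := by
    by_contra h5
    push Not at h5
    nlinarith
  have h6 : (((k : ℕ) : ℤ) : ℝ) - (((l : ℕ) : ℤ) : ℝ) = (((k : ℕ) : ℤ) - ((l : ℕ) : ℤ) : ℤ) := by
    push_cast; ring
  have h7 : |(((k : ℕ) : ℤ) - ((l : ℕ) : ℤ))| < 1 := by
    have : |((((k : ℕ) : ℤ) - ((l : ℕ) : ℤ) : ℤ) : ℝ)| < 1 := by
      rw [← h6]; simpa using h4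
    exact_mod_cast this
  have h8 : ((k : ℕ) : ℤ) - ((l : ℕ) : ℤ) = 0 := Int.abs_lt_one_iff.mp h7
  apply hkl
  apply Fin.ext
  omega

/-- the row -/
theorem pf_CIR : T_CIR := by
  intro n ε hε
  set c₀ : ℝ := (ε / (2 * (n + 1))) ^ n with hc₀
  have hb : 0 < ε / (2 * ((n : ℝ) + 1)) := by positivity
  have hc₀p : 0 < c₀ := pow_pos hb n
  refine ⟨c₀ / 2, by positivity, ?_⟩
  intro Q hQ hdeg L s₀ B hL hbd
  -- the roots
  have hsplit : Q = (Q.roots.map (fun a => Polynomial.X - Polynomial.C a)).prod := by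
    have h := (IsAlgClosed.splits Q).eq_prod_roots_of_monic hQ
    exact h
  have hcard : Q.roots.card = n := by
    rw [← hdeg]
    exact (IsAlgClosed.splits Q).natDegree_eq_card_roots.symm
  set l : List ℂ := Q.roots.toList with hl
  have hlen : l.length = n := by
    rw [hl, Multiset.length_toList, hcard]
  have heval : ∀ s : ℂ, ‖Q.eval s‖ = ∏ j : Fin n, ‖s - l.get (j.cast hlen.symm)‖ := by
    intro s
    have h1 : Q.eval s = (l.map (fun a => s - a)).prod := by
      conv_lhs => rw [hsplit]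
      rw [Polynomial.eval_multiset_prod, Multiset.map_map]
      conv_lhs => rw [← Multiset.coe_toList Q.roots]
      rw [Multiset.map_coe, Multiset.prod_coe]
      simp [hl]
    rw [h1]
    have h2 : ((l.map (fun a => s - a)).map (fun z : ℂ => ‖z‖)).prod =
        ‖(l.map (fun a => s - a)).prod‖ := by
      generalize l.map (fun a => s - a) = l'
      induction l' with
      | nil => simp
      | cons a t ih => simp only [List.map_cons, List.prod_cons, norm_mul, ih]
    rw [← h2, List.map_map]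
    rw [← List.prod_ofFn]
    congr 1
    apply List.ext_get
    · simp [hlen]
    · intro i h3 h4
      simp
  obtain ⟨R, hR1, hR2, hR3⟩ := exists_radius n ε hε
    (fun j => ‖l.get (j.cast hlen.symm) - s₀‖)
  have hRpos : 0 < R := lt_of_lt_of_le hε hR1
  have hlow : ∀ s : ℂ, ‖s - s₀‖ = R → c₀ ≤ ‖Q.eval s‖ := by
    intro s hs
    rw [heval s]
    calc c₀ = ∏ _j : Fin n, (ε / (2 * ((n : ℝ) + 1))) := by
          rw [Finset.prod_const, Finset.card_univ, Fintype.card_fin]
      _ ≤ _ := by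
        apply Finset.prod_le_prod
        · intro j _; exact hb.le
        · intro j _
          refine (hR3 j).trans ?_
          rw [← hs]
          calc |‖l.get (j.cast hlen.symm) - s₀‖ - ‖s - s₀‖|
              ≤ ‖(l.get (j.cast hlen.symm) - s₀) - (s - s₀)‖ := abs_norm_sub_norm_le _ _
            _ = ‖s - l.get (j.cast hlen.symm)‖ := by
              rw [← norm_neg]; congr 1; ring
  have hcirc : ∀ s : ℂ, ‖s - s₀‖ = R → ‖L s‖ ≤ B / (c₀ / 2) := by
    intro s hs
    have h1 := hbd s (by rw [hs]; exact hR1) (by rw [hs]; exact hR2)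
    have h2 : c₀ * ‖L s‖ ≤ ‖Q.eval s‖ * ‖L s‖ :=
      mul_le_mul_of_nonneg_right (hlow s hs) (norm_nonneg _)
    rw [le_div_iff₀ (by positivity)]
    nlinarith [norm_nonneg (L s)]
  have hmax : ∀ z ∈ closure (ball s₀ R), ‖L z‖ ≤ B / (c₀ / 2) := by
    intro z hz
    refine Complex.norm_le_of_forall_mem_frontier_norm_le (isBounded_ball)
      (hL.diffContOnCl) ?_ hz
    intro w hw
    rw [frontier_ball s₀ hRpos.ne'] at hw
    exact hcirc w (by simpa [dist_eq_norm] using hw)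
  exact hmax s₀ (subset_closure (mem_ball_self hRpos))

end Pool.Agent.H76.GA
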